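import Pool.Agent.Helper10.CR.Goals2

/-!
# Project CR, packet LAW: linear algebra for case W
-/

universe u v

namespace Pool.Agent.Helper89.CR

open Pool.Agent.Helper10.CR

/-- The elements of `E ⊗ M` in terms of a generating family of `E`. -/
theorem mem_tens_iff {K : Type u} [CommRing K] {M : Type u} [AddCommGroup M] [Module K M]
    {ι : Type} {E : Submodule K (ι → K)} {r : ℕ} {g : Fin r → ι → K}
    (hg : Submodule.span K (Set.range g) = E) (P : ι → M) :
    P ∈ tens (M := M) E ↔ ∃ w : Fin r → M, P = fun i => ∑ j, g j i • w j := by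
  constructor
  · intro hP
    unfold tens at hP
    induction hP using Submodule.span_induction with
    | mem x hx =>
      obtain ⟨ε, hε, m, rfl⟩ := hx
      rw [← hg, Submodule.mem_span_range_iff_exists_fun] at hε
      obtain ⟨t, rfl⟩ := hε
      refine ⟨fun j => t j • m, ?_⟩
      funext i
      rw [Finset.sum_apply, Finset.sum_smul]
      refine Finset.sum_congr rfl fun j _ => ?_
      rw [Pi.smul_apply, smul_eq_mul, mul_comm, mul_smul]
    | zero => exact ⟨0, by funext i; simp⟩
    | add x y _ _ hx hy =>
      obtain ⟨w, rfl⟩ := hx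
      obtain ⟨w', rfl⟩ := hy
      refine ⟨w + w', ?_⟩
      funext i
      simp only [Pi.add_apply, smul_add, Finset.sum_add_distrib]
    | smul a x _ hx =>
      obtain ⟨w, rfl⟩ := hx
      refine ⟨a • w, ?_⟩
      funext i
      simp only [Pi.smul_apply, Finset.smul_sum]
      exact Finset.sum_congr rfl fun j _ => smul_comm _ _ _
  · rintro ⟨w, rfl⟩
    have h1 : (fun i => ∑ j, g j i • w j) = ∑ j, fun i => g j i • w j := by
      funext i
      rw [Finset.sum_apply]
    rw [h1]
    refine Submodule.sum_mem _ fun j _ => Submodule.subset_span ⟨g j, ?_, w j, rfl⟩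
    rw [← hg]
    exact Submodule.subset_span ⟨j, rfl⟩

/-- **Packet LAW.** -/
theorem goalLAW : GoalLAW.{u} := by
  intro k _ N q EA
  obtain ⟨r, g, hg⟩ := Submodule.fg_iff_exists_fin_generating_family.1
    (Module.Finite.iff_fg.1 (inferInstance : Module.Finite k EA))
  refine ⟨{ n := r
            s := 1
            q := q
            a := fun _ => 1
            b := fun _ j => -g j (Sum.inl ())
            c := fun _ _ => 0
            d := fun l i j => g j (Sum.inr (i, l)) }, ?_⟩
  intro X v
  rw [RF.mem_sol]
  constructor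
  · rintro ⟨y, hy, hy'⟩
    refine ⟨fun m => ∑ j, g j m • y j, (mem_tens_iff hg _).2 ⟨y, rfl⟩, ?_, ?_⟩
    · have h := hy 0
      simp only [one_smul, neg_smul, Finset.sum_neg_distrib] at h
      exact add_neg_eq_zero.1 h
    · intro c
      have h := hy' c
      simp only [zero_smul, zero_add] at h
      exact h
  · rintro ⟨P, hP, hv, hc⟩
    obtain ⟨w, rfl⟩ := (mem_tens_iff hg _).1 hP
    refine ⟨w, fun _ => ?_, fun l => ?_⟩
    · simp only [one_smul, neg_smul, Finset.sum_neg_distrib]
      exact add_neg_eq_zero.2 hv
    · have h := hc l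
      simp only [zero_smul, zero_add]
      exact h

end Pool.Agent.Helper89.CR
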