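import Pool.Agent.Helper48.CR.Goals

/-!
# MP_69be96_nt, packet NUM3

Elementary asymptotics for the hybrid random sieve.
-/

set_option autoImplicit false

open Finset Filter Topology

namespace Pool.Agent.Helper89.CR

open Pool.Agent.Helper48.CR

theorem one_sub_ge {x : ℝ} (h0 : 0 ≤ x) (h1 : x ≤ 1 / 2) : Real.exp (-(2 * x)) ≤ 1 - x := by
  have hx : 0 < 1 - x := by linarith
  have h2 : (1 - x)⁻¹ ≤ 1 + 2 * x := by
    rw [inv_le_comm₀ hx (by linarith), inv_le_comm₀ (by linarith) hx]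
    rw [inv_le_iff_one_le_mul₀ hx]
    nlinarith
  have h3 : (1 - x)⁻¹ ≤ Real.exp (2 * x) := h2.trans (by linarith [Real.add_one_le_exp (2 * x)])
  rw [Real.exp_neg]
  exact inv_le_of_inv_le₀ hx h3

theorem exp_le_lin {x : ℝ} (h0 : 0 ≤ x) (h1 : x ≤ 1 / 2) : Real.exp x ≤ 1 + 2 * x := by
  have hx : 0 < 1 - x := by linarith
  have h2 : 1 - x ≤ Real.exp (-x) := by linarith [Real.add_one_le_exp (-x)]
  have h3 : Real.exp x ≤ (1 - x)⁻¹ := by
    rw [Real.exp_neg] at h2
    exact (le_inv_comm₀ hx (Real.exp_pos x)).1 h2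
  refine h3.trans ?_
  rw [inv_le_iff_one_le_mul₀ hx]
  nlinarith

theorem num3 : NUM3G := by
  intro K c δ hc hδ
  set A : ℝ := (1 + δ) * (c * (K : ℝ) ^ 2 / 2) with hA
  have hA0 : 0 ≤ A := by positivity
  set B : ℝ := K * (A + 1) ^ 2 + 2 * A + 100 + 8 * A + 8 * (c * (K : ℝ) ^ 2) + 8 with hB
  have hlog : Tendsto (fun r : ℕ => Real.log (r : ℝ)) atTop atTop :=
    Real.tendsto_log_atTop.comp tendsto_natCast_atTop_atTop
  have e1 : ∀ᶠ r : ℕ in atTop, B ≤ Real.log r := hlog.eventually_ge_atTop B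
  have e2 : ∀ᶠ r : ℕ in atTop, Real.log (r : ℝ) ^ 20 ≤ r := by
    have h := (Real.isLittleO_pow_log_id_atTop (n := 20)).bound (c := 1) one_pos
    have h' := tendsto_natCast_atTop_atTop (R := ℝ) |>.eventually h
    filter_upwards [h', e1] with r hr hr1
    have : (0:ℝ) ≤ Real.log r := Real.log_natCast_nonneg r
    simp only [id, one_mul, Real.norm_eq_abs, abs_pow] at hr
    rw [abs_of_nonneg this, abs_of_nonneg (Nat.cast_nonneg r)] at hr
    exact hr
  filter_upwards [e1, e2, eventually_ge_atTop (2 ^ K), eventually_ge_atTop 2]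
    with r h1 h2 h3 h4
  set L : ℝ := Real.log r with hL
  set M : ℕ := Ms K c δ r with hM
  have hr2 : (2:ℝ) ≤ r := by exact_mod_cast h4
  have hr0 : (0:ℝ) < r := by linarith
  have hKK : (0:ℝ) ≤ K * (A + 1) ^ 2 := by positivity
  have hcK : (0:ℝ) ≤ c * (K : ℝ) ^ 2 := by positivity
  have hL100 : (100:ℝ) ≤ L := by linarith
  have hL0 : (0:ℝ) ≤ L := by linarith
  have hL1 : (1:ℝ) ≤ L := by linarith
  have hMA : (M : ℝ) ≤ A * L := by
    have h5 : (0:ℝ) ≤ (1 + δ) * (c * (K : ℝ) ^ 2 * Real.log r / 2) := by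
      have : 0 ≤ Real.log (r : ℝ) := hL0
      positivity
    have := Nat.floor_le h5
    calc (M : ℝ) ≤ (1 + δ) * (c * (K : ℝ) ^ 2 * Real.log r / 2) := this
      _ = A * L := by rw [hA, hL]; ring
  have hM0 : (0:ℝ) ≤ M := Nat.cast_nonneg _
  -- powers of L
  have hLr : L ≤ r := by
    calc L = L ^ 1 := (pow_one L).symm
      _ ≤ L ^ 20 := pow_le_pow_right₀ hL1 (by norm_num)
      _ ≤ r := h2
  have hL2r : L ^ 3 ≤ r := (pow_le_pow_right₀ hL1 (by norm_num)).trans h2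
  have g1 : ((K * (M + 1) ^ 2 : ℕ) : ℝ) ≤ L ^ 7 := by
    push_cast
    have : (M : ℝ) + 1 ≤ (A + 1) * L := by nlinarith
    calc (K : ℝ) * ((M : ℝ) + 1) ^ 2 ≤ K * ((A + 1) * L) ^ 2 := by gcongr
      _ = (K * (A + 1) ^ 2) * L ^ 2 := by ring
      _ ≤ L * L ^ 2 := by
          gcongr
          linarith
      _ = L ^ 3 := by ring
      _ ≤ L ^ 7 := pow_le_pow_right₀ hL1 (by norm_num)
  have g2 : ((2 * M : ℕ) : ℝ) ≤ L ^ 2 := by
    push_cast
    nlinarith
  have hM1 : (M : ℝ) ≤ L ^ 2 := by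
    push_cast at g2
    linarith
  refine ⟨g1, g2, ?_, ?_, ?_, ?_⟩
  · have : ((8 * M + 8 : ℕ) : ℝ) ≤ r := by
      push_cast
      calc 8 * (M : ℝ) + 8 ≤ 8 * A * L + 8 * L := by nlinarith
        _ = (8 * A + 8) * L := by ring
        _ ≤ L * L := by
            gcongr
            linarith
        _ = L ^ 2 := by ring
        _ ≤ r := (pow_le_pow_right₀ hL1 (by norm_num)).trans h2
    exact_mod_cast this
  · have hlog1 : Real.log (((r + 1) ^ K : ℕ) : ℝ) ≤ K * (2 * L) := by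
      push_cast
      rw [Real.log_pow]
      gcongr
      calc Real.log ((r : ℝ) + 1) ≤ Real.log ((r : ℝ) ^ 2) := by
            apply Real.log_le_log (by linarith)
            nlinarith
        _ = 2 * L := by rw [Real.log_pow]; push_cast; rfl
    have hlog0 : 0 ≤ Real.log (((r + 1) ^ K : ℕ) : ℝ) := Real.log_natCast_nonneg _
    have hy : (yr K c r : ℝ) ≤ 4 * (c * (K : ℝ) ^ 2) * L ^ 2 + 2 := by
      have h5 : 0 ≤ c * Real.log (((r + 1) ^ K : ℕ) : ℝ) ^ 2 := by positivity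
      have h6 := (Nat.ceil_lt_add_one h5).le
      have h7 : c * Real.log (((r + 1) ^ K : ℕ) : ℝ) ^ 2 ≤ c * (K * (2 * L)) ^ 2 := by gcongr
      unfold yr
      push_cast at h6 h7 ⊢
      calc _ ≤ c * (K * (2 * L)) ^ 2 + 1 + 1 := by linarith
        _ = 4 * (c * (K : ℝ) ^ 2) * L ^ 2 + 2 := by ring
    have : ((2 * yr K c r + 2 : ℕ) : ℝ) ≤ r := by
      push_cast
      calc 2 * (yr K c r : ℝ) + 2 ≤ 8 * (c * (K : ℝ) ^ 2) * L ^ 2 + 6 := by linarith
        _ ≤ 8 * (c * (K : ℝ) ^ 2) * L ^ 2 + 8 * L ^ 2 := by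
            have : 1 ≤ L ^ 2 := one_le_pow₀ hL1
            linarith
        _ = (8 * (c * (K : ℝ) ^ 2) + 8) * L ^ 2 := by ring
        _ ≤ L * L ^ 2 := by
            gcongr
            linarith
        _ = L ^ 3 := by ring
        _ ≤ r := hL2r
    exact_mod_cast this
  · calc (r + 1) ^ K ≤ (2 * r) ^ K := Nat.pow_le_pow_left (by omega) K
      _ = 2 ^ K * r ^ K := mul_pow _ _ _
      _ ≤ r * r ^ K := Nat.mul_le_mul_right _ h3
      _ = r ^ (K + 1) := by ring
  · intro C hC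
    have hCL : (C : ℝ) ≤ L ^ 7 := le_trans (by exact_mod_cast hC) g1
    have hC0 : (0:ℝ) ≤ C := Nat.cast_nonneg _
    have hx1 : 0 ≤ 1 / (r : ℝ) := by positivity
    have hx2 : 1 / (r : ℝ) ≤ 1 / 2 := by
      apply one_div_le_one_div_of_le <;> linarith
    -- the three factors
    have f1 : (1 + 2 * (M : ℝ) * 4 ^ 2 / r) ^ C ≤ Real.exp (32 * M * C / r) := by
      have : 1 + 2 * (M : ℝ) * 4 ^ 2 / r ≤ Real.exp (32 * M / r) := by
        have := Real.add_one_le_exp (32 * (M : ℝ) / r)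
        calc 1 + 2 * (M : ℝ) * 4 ^ 2 / r = 32 * (M : ℝ) / r + 1 := by ring
          _ ≤ _ := this
      calc (1 + 2 * (M : ℝ) * 4 ^ 2 / r) ^ C ≤ Real.exp (32 * M / r) ^ C := by gcongr
        _ = Real.exp (32 * M * C / r) := by
            rw [← Real.exp_nat_mul]
            congr 1
            ring
    have f2 : (1 + 2 / (r : ℝ)) ^ (2 * M) ≤ Real.exp (4 * M / r) := by
      have : 1 + 2 / (r : ℝ) ≤ Real.exp (2 / r) := by
        have := Real.add_one_le_exp (2 / (r : ℝ))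
        linarith
      calc (1 + 2 / (r : ℝ)) ^ (2 * M) ≤ Real.exp (2 / r) ^ (2 * M) := by gcongr
        _ = Real.exp (4 * M / r) := by
            rw [← Real.exp_nat_mul]
            congr 1
            push_cast
            ring
    have f3 : Real.exp (-(4 * C / r)) ≤ (1 - 1 / (r : ℝ)) ^ (2 * C) := by
      calc Real.exp (-(4 * C / r)) = Real.exp (-(2 * (1 / (r : ℝ)))) ^ (2 * C) := by
            rw [← Real.exp_nat_mul]
            congr 1
            push_cast
            ring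
        _ ≤ (1 - 1 / (r : ℝ)) ^ (2 * C) := by
            gcongr
            exact one_sub_ge hx1 hx2
    have hprod : (1 + 2 * (M : ℝ) * 4 ^ 2 / r) ^ C * (1 + 2 / (r : ℝ)) ^ (2 * M) /
        (1 - 1 / (r : ℝ)) ^ (2 * C) ≤ Real.exp ((32 * M * C + 4 * M + 4 * C) / r) := by
      rw [div_le_iff₀ (lt_of_lt_of_le (Real.exp_pos _) f3)]
      calc (1 + 2 * (M : ℝ) * 4 ^ 2 / r) ^ C * (1 + 2 / (r : ℝ)) ^ (2 * M)
          ≤ Real.exp (32 * M * C / r) * Real.exp (4 * M / r) := by gcongr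
        _ = Real.exp ((32 * M * C + 4 * M + 4 * C) / r) * Real.exp (-(4 * C / r)) := by
            rw [← Real.exp_add, ← Real.exp_add]
            congr 1
            ring
        _ ≤ _ := by gcongr
    -- the exponent
    set E : ℝ := (32 * M * C + 4 * M + 4 * C) / r with hE
    have hE0 : 0 ≤ E := by positivity
    have hsq : L ^ 10 ≤ Real.sqrt r := by
      apply Real.le_sqrt_of_sq_le
      have e : (L ^ 10) ^ 2 = L ^ 20 := by ring
      rw [e]
      exact h2
    have hsq0 : 0 < Real.sqrt r := Real.sqrt_pos.2 hr0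
    have hnum : 32 * (M : ℝ) * C + 4 * M + 4 * C ≤ 40 * L ^ 9 := by
      have a1 : (M : ℝ) * C ≤ L ^ 2 * L ^ 7 := by gcongr
      have a2 : L ^ 2 ≤ L ^ 9 := pow_le_pow_right₀ hL1 (by norm_num)
      have a3 : L ^ 7 ≤ L ^ 9 := pow_le_pow_right₀ hL1 (by norm_num)
      have a4 : L ^ 2 * L ^ 7 = L ^ 9 := by ring
      nlinarith
    have h80 : 80 * L ^ 9 ≤ Real.sqrt r := by
      calc 80 * L ^ 9 ≤ L * L ^ 9 := by
            gcongr
            linarith
        _ = L ^ 10 := by ring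
        _ ≤ _ := hsq
    have h2E : 2 * E ≤ (Real.sqrt r)⁻¹ := by
      rw [hE]
      have hrr : (r : ℝ) = Real.sqrt r * Real.sqrt r := (Real.mul_self_sqrt hr0.le).symm
      calc 2 * ((32 * (M : ℝ) * C + 4 * M + 4 * C) / r) ≤ 2 * (40 * L ^ 9 / r) := by gcongr
        _ = 80 * L ^ 9 / r := by ring
        _ ≤ Real.sqrt r / r := by gcongr
        _ = (Real.sqrt r)⁻¹ := by
            rw [div_eq_iff hr0.ne']
            rw [hrr, Real.sqrt_mul_self hsq0.le]
            field_simp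
    have hE2 : E ≤ 1 / 2 := by
      have : (Real.sqrt r)⁻¹ ≤ 1 := by
        apply inv_le_one_of_one_le₀
        exact (one_le_pow₀ hL1).trans hsq
      linarith
    have hrp : (r : ℝ) ^ (-(1 / 2) : ℝ) = (Real.sqrt r)⁻¹ := by
      rw [Real.rpow_neg hr0.le, ← Real.sqrt_eq_rpow]
    rw [hrp]
    exact hprod.trans ((exp_le_lin hE0 hE2).trans (by linarith))

end Pool.Agent.Helper89.CR
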