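import Pool.Agent.Helper85.CR.Goals

/-!
# Project CR (MP_bdaf95_co), packet FCNT: degrees and edges after closing
-/

set_option autoImplicit false

namespace Pool.Agent.Helper89.CR

open Pool.Agent.Helper85.CR

section

variable {V : Type} {G : SimpleGraph V} {ρ : Fin 4 → V}

theorem close_adj (u v : V) : (close G ρ).Adj u v ↔ G.Adj u v ∨
    ((s(u, v) = s(ρ 0, ρ 2) ∨ s(u, v) = s(ρ 1, ρ 3)) ∧ u ≠ v) := by
  simp only [close, SimpleGraph.sup_adj, SimpleGraph.fromEdgeSet_adj, Set.mem_insert_iff,
    Set.mem_singleton_iff]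

theorem adj_opp (hinj : Function.Injective ρ) (i : Fin 4) :
    (close G ρ).Adj (ρ i) (ρ (i + 2)) := by
  rw [close_adj]
  right
  constructor
  · fin_cases i
    · left; rfl
    · right; rfl
    · left; exact Sym2.eq_swap
    · right; exact Sym2.eq_swap
  · intro h
    have := hinj h
    revert this
    fin_cases i <;> decide

theorem not_adj_opp (h02 : ¬ G.Adj (ρ 0) (ρ 2)) (h13 : ¬ G.Adj (ρ 1) (ρ 3)) (i : Fin 4) :
    ¬ G.Adj (ρ i) (ρ (i + 2)) := by
  fin_cases i
  · exact h02
  · exact h13
  · exact fun h => h02 h.symm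
  · exact fun h => h13 h.symm

end

/-- Packet FCNT. -/
theorem gFCNT : StmtFCNT := by
  classical
  intro V _ G ρ x h hC h02 h13
  have hinj := hC.inj
  have hne02 : ρ 0 ≠ ρ 2 := fun h => by simpa using hinj h
  have hne13 : ρ 1 ≠ ρ 3 := fun h => by simpa using hinj h
  have hmono : ∀ v, deg G v ≤ deg (close G ρ) v := by
    intro v
    apply Set.ncard_le_ncard _ (Set.toFinite _)
    intro u hu
    exact (close_adj v u).2 (Or.inl hu)
  refine ⟨?_, ?_, ?_⟩
  · have h1 : (close G ρ).edgeSet = insert s(ρ 0, ρ 2) (insert s(ρ 1, ρ 3) G.edgeSet) := by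
      ext e
      induction e using Sym2.ind with
      | _ u v =>
        rw [SimpleGraph.mem_edgeSet, close_adj, Set.mem_insert_iff, Set.mem_insert_iff,
          SimpleGraph.mem_edgeSet]
        constructor
        · rintro (h | ⟨h | h, _⟩)
          · exact Or.inr (Or.inr h)
          · exact Or.inl h
          · exact Or.inr (Or.inl h)
        · rintro (h | h | h)
          · refine Or.inr ⟨Or.inl h, ?_⟩
            rintro rfl
            rw [Sym2.eq_iff] at h
            rcases h with ⟨h1, h2⟩ | ⟨h1, h2⟩
            · exact hne02 (h1.symm.trans h2)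
            · exact hne02 (h2.symm.trans h1)
          · refine Or.inr ⟨Or.inr h, ?_⟩
            rintro rfl
            rw [Sym2.eq_iff] at h
            rcases h with ⟨h1, h2⟩ | ⟨h1, h2⟩
            · exact hne13 (h1.symm.trans h2)
            · exact hne13 (h2.symm.trans h1)
          · exact Or.inl h
    have h2 : s(ρ 1, ρ 3) ∉ G.edgeSet := by
      rw [SimpleGraph.mem_edgeSet]; exact h13
    have h3 : s(ρ 0, ρ 2) ∉ insert s(ρ 1, ρ 3) G.edgeSet := by
      rw [Set.mem_insert_iff, SimpleGraph.mem_edgeSet]
      rintro (h | h)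
      · rw [Sym2.eq_iff] at h
        rcases h with ⟨h1, _⟩ | ⟨h1, _⟩
        · have := hinj h1; simp at this
        · have := hinj h1; simp at this
      · exact h02 h
    rw [h1, Set.ncard_insert_of_notMem h3 (Set.toFinite _),
      Set.ncard_insert_of_notMem h2 (Set.toFinite _)]
    have := hC.edges
    omega
  · intro v hv
    by_cases hr : ∃ i, v = ρ i
    · obtain ⟨i, rfl⟩ := hr
      have h1 : insert (ρ (i + 2)) (G.neighborSet (ρ i)) ⊆ (close G ρ).neighborSet (ρ i) := by
        intro u hu
        rcases hu with rfl | hu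
        · exact adj_opp hinj i
        · exact (close_adj (ρ i) u).2 (Or.inl hu)
      have h2 := Set.ncard_le_ncard h1 (Set.toFinite _)
      have h4 : ρ (i + 2) ∉ G.neighborSet (ρ i) := not_adj_opp h02 h13 i
      rw [Set.ncard_insert_of_notMem h4 (Set.toFinite _)] at h2
      have h3 := hC.ringdeg i
      unfold deg at h3 ⊢
      omega
    · push Not at hr
      exact (hC.degs v hv hr).trans (hmono v)
  · intro v hv
    have hr : ∀ i, v ≠ ρ i := by
      rintro i rfl
      exact hC.nh i hv
    have h1 : (close G ρ).neighborSet v = G.neighborSet v := by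
      ext u
      rw [SimpleGraph.mem_neighborSet, SimpleGraph.mem_neighborSet, close_adj]
      constructor
      · rintro (h | ⟨h | h, _⟩)
        · exact h
        · exfalso
          rw [Sym2.eq_iff] at h
          rcases h with ⟨h1, _⟩ | ⟨h1, _⟩
          · exact hr _ h1
          · exact hr _ h1
        · exfalso
          rw [Sym2.eq_iff] at h
          rcases h with ⟨h1, _⟩ | ⟨h1, _⟩
          · exact hr _ h1
          · exact hr _ h1
      · exact Or.inl
    have h2 := hC.hdeg v hv
    unfold deg at h2 ⊢
    rw [h1, h2]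

end Pool.Agent.Helper89.CR
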